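import Pool.Agent.Y313.CE.Base

set_option autoImplicit false
set_option linter.unusedSectionVars false

/-!
# Extensions generated by a family with multiplicative conditional transforms
-/

open MeasureTheory Set Filter Topology
open scoped ENNReal NNReal

namespace Pool.Agent.Y313.CE

open Pool.Agent.H716R2
open Pool.Agent.Y313.RM (mp_int mp_ae)

/-- the setting -/
structure Ctx {Z : Type*} (𝒜 : MeasurableSpace Z) [mZ : MeasurableSpace Z] (m : Measure Z)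
    (T : Z ≃ᵐ Z) (H : AddSubmonoid (Z → ℝ)) (χ : ℝ → ℂ) (L : (Z → ℝ) → Z → ℝ) : Prop where
  le : 𝒜 ≤ mZ
  mp : MeasurePreserving T m m
  com : 𝒜.comap T = 𝒜
  meas : ∀ h ∈ H, Measurable h
  inv : ∀ h ∈ H, (fun z => h (T z)) ∈ H
  χm : Measurable χ
  χ0 : χ 0 = 1
  χadd : ∀ x y, χ (x + y) = χ x * χ y
  χb : ∀ h ∈ H, ∀ z, ‖χ (h z)‖ ≤ 1
  Lm : ∀ h, Measurable[𝒜] (L h)
  Lp : ∀ h ∈ H, ∀ᵐ z ∂m, 0 < L h z
  Le : ∀ h ∈ H, m[fun z => χ (h z) | 𝒜] =ᵐ[m] fun z => ((L h z : ℝ) : ℂ)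

section
variable {Z : Type*} {𝒜 : MeasurableSpace Z} [mZ : MeasurableSpace Z]

/-- the shifted function -/
def it (T : Z ≃ᵐ Z) (h : Z → ℝ) (n : ℕ) : Z → ℝ := fun z => h ((⇑T)^[n] z)

/-- the logarithm of the quotient of the conditional transforms -/
noncomputable def D (L : (Z → ℝ) → Z → ℝ) (a b : Z → ℝ) (z : Z) : ℝ :=
  Real.log (L (a + b) z) - Real.log (L a z) - Real.log (L b z)

variable {m : Measure Z} [IsProbabilityMeasure m] {T : Z ≃ᵐ Z} {H : AddSubmonoid (Z → ℝ)}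
  {χ : ℝ → ℂ} {L : (Z → ℝ) → Z → ℝ}

theorem Ctx.it_mem (c : Ctx 𝒜 m T H χ L) {h : Z → ℝ} (hh : h ∈ H) (n : ℕ) : it T h n ∈ H := by
  induction n with
  | zero => exact hh
  | succ n ih =>
    have h1 := c.inv _ ih
    have : it T h (n + 1) = fun z => it T h n (T z) := by
      ext z
      simp only [it]
      rw [← Function.iterate_succ_apply]
    rw [this]
    exact h1

theorem Ctx.χmeas (c : Ctx 𝒜 m T H χ L) {h : Z → ℝ} (hh : h ∈ H) :
    Measurable fun z => χ (h z) := c.χm.comp (c.meas h hh)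

theorem Ctx.χint (c : Ctx 𝒜 m T H χ L) {h : Z → ℝ} (hh : h ∈ H) :
    Integrable (fun z => χ (h z)) m :=
  Integrable.of_bound (c.χmeas hh).aestronglyMeasurable 1 (Eventually.of_forall (c.χb h hh))

theorem Ctx.Lmeas (c : Ctx 𝒜 m T H χ L) (h : Z → ℝ) : Measurable (L h) := (c.Lm h).mono c.le le_rfl

theorem Ctx.L_re (c : Ctx 𝒜 m T H χ L) {h : Z → ℝ} (hh : h ∈ H) :
    m[fun z => (χ (h z)).re | 𝒜] =ᵐ[m] L h := by
  have h1 := ContinuousLinearMap.comp_condExp_comm (m := 𝒜) (c.χint hh) Complex.reCLM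
  have h2 : (Complex.reCLM ∘ fun z => χ (h z)) = fun z => (χ (h z)).re := rfl
  rw [h2] at h1
  filter_upwards [h1, c.Le h hh] with z e1 e2
  rw [← e1, Function.comp_apply, e2]
  exact Complex.ofReal_re _

theorem Ctx.L_le (c : Ctx 𝒜 m T H χ L) {h : Z → ℝ} (hh : h ∈ H) : ∀ᵐ z ∂m, L h z ≤ 1 := by
  have h1 : m[fun z => (χ (h z)).re | 𝒜] ≤ᵐ[m] m[fun _ => (1 : ℝ) | 𝒜] := by
    refine condExp_mono (c.χint hh).re (integrable_const _) (Eventually.of_forall fun z => ?_)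
    exact (Complex.re_le_norm _).trans (c.χb h hh z)
  rw [condExp_const c.le] at h1
  filter_upwards [h1, c.L_re hh] with z e1 e2
  rw [← e2]
  exact e1

theorem Ctx.L_zero (c : Ctx 𝒜 m T H χ L) : ∀ᵐ z ∂m, L 0 z = 1 := by
  have h1 := c.L_re H.zero_mem
  have h2 : (fun z : Z => (χ ((0 : Z → ℝ) z)).re) = fun _ => (1 : ℝ) := by
    ext z
    simp [c.χ0]
  rw [h2, condExp_const c.le] at h1
  filter_upwards [h1] with z e1
  exact e1.symm

theorem Ctx.L_it (c : Ctx 𝒜 m T H χ L) {h : Z → ℝ} (hh : h ∈ H) (n : ℕ) :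
    ∀ᵐ z ∂m, L (it T h n) z = L h ((⇑T)^[n] z) := by
  have h1 := condExp_comp (iter_mp c.mp n) c.le (iter_comap c.com n) (c.χint hh)
  have h2 := c.Le _ (c.it_mem hh n)
  filter_upwards [h1, h2, mp_ae (iter_mp c.mp n) (c.Le h hh)] with z e1 e2 e3
  have e4 : ((L (it T h n) z : ℝ) : ℂ) = ((L h ((⇑T)^[n] z) : ℝ) : ℂ) := by
    rw [← e2, ← e3]
    exact e1
  exact_mod_cast e4

theorem it_add (a b : Z → ℝ) (n : ℕ) : it T a n + it T b n = it T (a + b) n := rfl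

theorem Ctx.D_it (c : Ctx 𝒜 m T H χ L) {a b : Z → ℝ} (ha : a ∈ H) (hb : b ∈ H) (n k : ℕ) :
    ∀ᵐ z ∂m, D L (it T a n) (it T b (n + k)) z = D L a (it T b k) ((⇑T)^[n] z) := by
  have hb' := c.it_mem hb k
  have e : it T b (n + k) = it T (it T b k) n := by
    ext z
    simp only [it]
    rw [← Function.iterate_add_apply, add_comm]
  filter_upwards [c.L_it ha n, c.L_it hb' n, c.L_it (H.add_mem ha hb') n] with z h1 h2 h3
  simp only [D]
  rw [e, it_add, h1, h2, h3]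

theorem D_comm (a b : Z → ℝ) (z : Z) : D L a b z = D L b a z := by
  simp only [D]
  rw [add_comm a b]
  ring

theorem Ctx.D_zero (c : Ctx 𝒜 m T H χ L) (b : Z → ℝ) : ∀ᵐ z ∂m, D L 0 b z = 0 := by
  filter_upwards [c.L_zero] with z h1
  simp only [D]
  rw [zero_add, h1, Real.log_one]
  ring

theorem Ctx.sub_sum (c : Ctx 𝒜 m T H χ L)
    (hsub : ∀ a ∈ H, ∀ b ∈ H, ∀ g ∈ H, ∀ᵐ z ∂m, |D L (a + b) g z| ≤ |D L a g z| + |D L b g z|)
    {ι : Type*} (S : Finset ι) (f : ι → Z → ℝ) (hf : ∀ i, f i ∈ H) {g : Z → ℝ} (hg : g ∈ H) :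
    ∀ᵐ z ∂m, |D L (∑ i ∈ S, f i) g z| ≤ ∑ i ∈ S, |D L (f i) g z| := by
  classical
  induction S using Finset.induction_on with
  | empty =>
    filter_upwards [c.D_zero g] with z h1
    simp [h1]
  | insert i S hi ih =>
    filter_upwards [ih, hsub _ (hf i) _ (H.sum_mem fun j _ => hf j) g hg] with z h1 h2
    rw [Finset.sum_insert hi, Finset.sum_insert hi]
    exact h2.trans (by linarith)

theorem Ctx.multi (c : Ctx 𝒜 m T H χ L)
    (hsub : ∀ a ∈ H, ∀ b ∈ H, ∀ g ∈ H, ∀ᵐ z ∂m, |D L (a + b) g z| ≤ |D L a g z| + |D L b g z|)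
    {ι : Type*} [DecidableEq ι] (S : Finset ι) (f : ι → Z → ℝ) (hf : ∀ i, f i ∈ H) :
    ∀ᵐ z ∂m, |Real.log (L (∑ i ∈ S, f i) z) - ∑ i ∈ S, Real.log (L (f i) z)|
      ≤ ∑ i ∈ S, ∑ j ∈ S.erase i, |D L (f i) (f j) z| := by
  induction S using Finset.induction_on with
  | empty =>
    filter_upwards [c.L_zero] with z h1
    simp [h1]
  | insert j S hj ih =>
    filter_upwards [ih, c.sub_sum hsub S f hf (hf j)] with z h1 h2
    have h3 : ∑ i ∈ insert j S, ∑ l ∈ (insert j S).erase i, |D L (f i) (f l) z|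
        = ∑ l ∈ S, |D L (f j) (f l) z| + ∑ i ∈ S, (|D L (f i) (f j) z|
          + ∑ l ∈ S.erase i, |D L (f i) (f l) z|) := by
      rw [Finset.sum_insert hj, Finset.erase_insert hj]
      congr 1
      refine Finset.sum_congr rfl fun i hi => ?_
      have hij : i ≠ j := fun h => hj (h ▸ hi)
      rw [Finset.erase_insert_of_ne (Ne.symm hij), Finset.sum_insert]
      exact fun h => hj (Finset.mem_of_mem_erase h)
    rw [h3, Finset.sum_insert hj, Finset.sum_insert hj, Finset.sum_add_distrib]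
    have h4 : Real.log (L (f j + ∑ i ∈ S, f i) z)
        - (Real.log (L (f j) z) + ∑ i ∈ S, Real.log (L (f i) z))
        = D L (∑ i ∈ S, f i) (f j) z
          + (Real.log (L (∑ i ∈ S, f i) z) - ∑ i ∈ S, Real.log (L (f i) z)) := by
      simp only [D]
      rw [add_comm (f j)]
      ring
    rw [h4]
    have h5 : (0 : ℝ) ≤ ∑ l ∈ S, |D L (f j) (f l) z| :=
      Finset.sum_nonneg fun _ _ => abs_nonneg _
    exact (abs_add_le _ _).trans (by linarith)

theorem abs_sub_le_abs_log_sub {x y : ℝ} (hx : 0 < x) (hy : 0 < y) (hx1 : x ≤ 1) (hy1 : y ≤ 1) :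
    |x - y| ≤ |Real.log x - Real.log y| := by
  wlog hxy : x ≤ y generalizing x y
  · rw [abs_sub_comm x, abs_sub_comm (Real.log x)]
    exact this hy hx hy1 hx1 (le_of_not_ge hxy)
  have h1 : Real.log x ≤ Real.log y := Real.log_le_log hx hxy
  rw [abs_of_nonpos (by linarith), abs_of_nonpos (by linarith)]
  have h2 : Real.log (x / y) ≤ x / y - 1 := Real.log_le_sub_one_of_pos (by positivity)
  rw [Real.log_div hx.ne' hy.ne'] at h2
  have h3 : 1 - x / y ≥ y - x := by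
    rw [ge_iff_le, sub_le_iff_le_add]
    have h4 : x / y ≤ 1 := (div_le_one hy).2 hxy
    have h5 : x = x / y * y := by field_simp
    nlinarith
  linarith

/-- convergence to zero in measure -/
def ToZ (m : Measure Z) (X : ℕ → Z → ℝ) : Prop :=
  ∀ ε : ℝ, 0 < ε → Tendsto (fun n => m.real {z | ε ≤ |X n z|}) atTop (𝓝 0)

end

end Pool.Agent.Y313.CE
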