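import Pool.Agent.Y313.CE.Abs

set_option autoImplicit false
set_option linter.unusedSectionVars false

/-!
# Asymptotic independence from pairs
-/

open MeasureTheory Set Filter Topology
open scoped ENNReal NNReal

namespace Pool.Agent.Y313.CE

open Pool.Agent.H716R2
open Pool.Agent.Y313.RM (mp_int mp_ae)

section
variable {Z : Type*} {𝒜 : MeasurableSpace Z} [mZ : MeasurableSpace Z]
variable {m : Measure Z} [IsProbabilityMeasure m] {T : Z ≃ᵐ Z} {H : AddSubmonoid (Z → ℝ)}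
  {χ : ℝ → ℂ} {L : (Z → ℝ) → Z → ℝ}

theorem ToZ.zero : ToZ m (fun _ _ => 0) := by
  intro ε hε
  have h1 : {z : Z | ε ≤ |(0 : ℝ)|} = ∅ := by
    ext z
    simp [hε]
  have : (fun _ : ℕ => m.real {z : Z | ε ≤ |(0 : ℝ)|}) = fun _ => (0 : ℝ) := by
    rw [h1]
    simp
  rw [this]
  exact tendsto_const_nhds

theorem ToZ.of_ae_le {X Y : ℕ → Z → ℝ} (hY : ToZ m Y) (h : ∀ n, ∀ᵐ z ∂m, |X n z| ≤ |Y n z|) :
    ToZ m X := by
  intro ε hε
  refine squeeze_zero (fun n => measureReal_nonneg) (fun n => ?_) (hY ε hε)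
  refine ENNReal.toReal_mono (measure_ne_top _ _) (measure_mono_ae ?_)
  filter_upwards [h n] with z hz
  intro h1
  have h1' : ε ≤ |X n z| := h1
  exact h1'.trans hz

theorem ToZ.add {X Y : ℕ → Z → ℝ} (hX : ToZ m X) (hY : ToZ m Y) :
    ToZ m fun n z => X n z + Y n z := by
  intro ε hε
  have h1 := (hX (ε / 2) (by positivity)).add (hY (ε / 2) (by positivity))
  rw [add_zero] at h1
  refine squeeze_zero (fun n => measureReal_nonneg) (fun n => ?_) h1
  refine (measureReal_mono ?_ (measure_ne_top _ _)).trans (measureReal_union_le _ _)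
  intro z hz
  have hz' : ε ≤ |X n z + Y n z| := hz
  by_contra hcon
  simp only [Set.mem_union, Set.mem_ofPred_eq, not_or, not_le] at hcon
  have := abs_add_le (X n z) (Y n z)
  linarith [hcon.1, hcon.2]

theorem ToZ.sum {ι : Type*} (S : Finset ι) {X : ι → ℕ → Z → ℝ} (h : ∀ i ∈ S, ToZ m (X i)) :
    ToZ m fun n z => ∑ i ∈ S, X i n z := by
  classical
  induction S using Finset.induction_on with
  | empty => simpa using ToZ.zero
  | insert i S hi ih =>
    simp only [Finset.sum_insert hi]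
    exact (h i (Finset.mem_insert_self i S)).add
      (ih fun j hj => h j (Finset.mem_insert_of_mem hj))

theorem ToZ.abs {X : ℕ → Z → ℝ} (h : ToZ m X) : ToZ m fun n z => |X n z| :=
  h.of_ae_le fun n => Eventually.of_forall fun z => by rw [abs_abs]

theorem ToZ.integral {Y : ℕ → Z → ℝ} (hY : ToZ m Y) (mY : ∀ n, Measurable (Y n))
    (bY : ∀ n, ∀ᵐ z ∂m, |Y n z| ≤ 1) : Tendsto (fun n => ∫ z, |Y n z| ∂m) atTop (𝓝 0) := by
  rw [Metric.tendsto_atTop]
  intro ε hε
  obtain ⟨N, hN⟩ := Metric.tendsto_atTop.1 (hY (ε / 2) (by positivity)) (ε / 2) (by positivity)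
  refine ⟨N, fun n hn => ?_⟩
  have h1 := hN n hn
  rw [Real.dist_eq, sub_zero, abs_of_nonneg measureReal_nonneg] at h1
  rw [Real.dist_eq, sub_zero, abs_of_nonneg (integral_nonneg fun z => abs_nonneg _)]
  have mE : MeasurableSet {z | ε / 2 ≤ |Y n z|} := measurableSet_le measurable_const (mY n).abs
  have i1 : Integrable (fun z => |Y n z|) m :=
    Integrable.of_bound (mY n).abs.aestronglyMeasurable 1 (by
      filter_upwards [bY n] with z hz
      rwa [Real.norm_eq_abs, abs_abs])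
  have i2 : Integrable (fun z => {z | ε / 2 ≤ |Y n z|}.indicator (fun _ => (1 : ℝ)) z) m :=
    (integrable_const _).indicator mE
  calc ∫ z, |Y n z| ∂m
      ≤ ∫ z, (ε / 2 + {z | ε / 2 ≤ |Y n z|}.indicator (fun _ => (1 : ℝ)) z) ∂m := by
        refine integral_mono_ae i1 ((integrable_const _).add i2) ?_
        filter_upwards [bY n] with z hz
        by_cases h2 : ε / 2 ≤ |Y n z|
        · rw [Set.indicator_of_mem (by exact h2)]
          linarith
        · rw [Set.indicator_of_notMem (by exact h2)]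
          linarith [not_le.1 h2]
    _ = ε / 2 + m.real {z | ε / 2 ≤ |Y n z|} := by
        rw [integral_add (integrable_const _) i2, integral_indicator mE]
        simp
    _ < ε := by linarith

theorem Ctx.D_meas (c : Ctx 𝒜 m T H χ L) (a b : Z → ℝ) : Measurable (D L a b) :=
  (((c.Lmeas (a + b)).log).sub ((c.Lmeas a).log)).sub ((c.Lmeas b).log)

theorem Ctx.D_spread (c : Ctx 𝒜 m T H χ L)
    (hpair : ∀ a ∈ H, ∀ b ∈ H, ToZ m fun n => D L a (it T b n)) {r : ℕ}
    {s : ℕ → Fin r → ℕ} (hs : Spread s) {a b : Z → ℝ} (ha : a ∈ H) (hb : b ∈ H) {i j : Fin r}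
    (hij : i < j) : ToZ m fun n => D L (it T a (s n i)) (it T b (s n j)) := by
  intro ε hε
  have hk : Tendsto (fun n => s n j - s n i) atTop atTop := by
    refine tendsto_atTop.2 fun N => ?_
    filter_upwards [hs N] with n hn
    have := hn i j hij
    omega
  have h1 := (hpair a ha b hb ε hε).comp hk
  refine h1.congr' ?_
  filter_upwards [hs 0] with n hn
  have h2 := hn i j hij
  rw [add_zero] at h2
  simp only [Function.comp_apply]
  have h3 := c.D_it ha hb (s n i) (s n j - s n i)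
  rw [Nat.add_sub_cancel' h2] at h3
  have mE : MeasurableSet {z | ε ≤ |D L a (it T b (s n j - s n i)) z|} :=
    measurableSet_le measurable_const (c.D_meas _ _).abs
  rw [← (iter_mp c.mp (s n i)).measureReal_preimage mE.nullMeasurableSet]
  refine congrArg ENNReal.toReal (measure_congr ?_)
  filter_upwards [h3] with z hz
  refine propext ?_
  show ε ≤ |D L a (it T b (s n j - s n i)) ((⇑T)^[s n i] z)| ↔
    ε ≤ |D L (it T a (s n i)) (it T b (s n j)) z|
  rw [hz]

/-- the conditional transform of a sum along spread out times is close to the product -/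
theorem Ctx.close (c : Ctx 𝒜 m T H χ L)
    (hsub : ∀ a ∈ H, ∀ b ∈ H, ∀ g ∈ H, ∀ᵐ z ∂m, |D L (a + b) g z| ≤ |D L a g z| + |D L b g z|)
    (hpair : ∀ a ∈ H, ∀ b ∈ H, ToZ m fun n => D L a (it T b n)) {r : ℕ}
    {s : ℕ → Fin r → ℕ} (hs : Spread s) {f : Fin r → Z → ℝ} (hf : ∀ i, f i ∈ H) :
    Tendsto (fun n => ∫ z, |L (∑ i, it T (f i) (s n i)) z - ∏ i, L (f i) ((⇑T)^[s n i] z)| ∂m)
      atTop (𝓝 0) := by
  classical
  have hW : ToZ m fun n z => ∑ i, ∑ j ∈ Finset.univ.erase i,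
      |D L (it T (f i) (s n i)) (it T (f j) (s n j)) z| := by
    refine ToZ.sum _ fun i _ => ToZ.sum _ fun j hj => ?_
    have hne : j ≠ i := Finset.ne_of_mem_erase hj
    rcases lt_or_gt_of_ne hne with h1 | h1
    · refine ToZ.abs ?_
      have := c.D_spread hpair hs (hf j) (hf i) h1
      refine this.of_ae_le fun n => Eventually.of_forall fun z => ?_
      rw [D_comm]
    · exact ToZ.abs (c.D_spread hpair hs (hf i) (hf j) h1)
  have hfn : ∀ n i, it T (f i) (s n i) ∈ H := fun n i => c.it_mem (hf i) _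
  have hsum : ∀ n, ∑ i, it T (f i) (s n i) ∈ H := fun n => H.sum_mem fun i _ => hfn n i
  have hprops : ∀ n, ∀ᵐ z ∂m, (0 < L (∑ i, it T (f i) (s n i)) z ∧
      L (∑ i, it T (f i) (s n i)) z ≤ 1) ∧ (∀ i, 0 < L (f i) ((⇑T)^[s n i] z) ∧
      L (f i) ((⇑T)^[s n i] z) ≤ 1) ∧ ∀ i, L (it T (f i) (s n i)) z = L (f i) ((⇑T)^[s n i] z) := by
    intro n
    have a1 : ∀ᵐ z ∂m, ∀ i, 0 < L (f i) ((⇑T)^[s n i] z) := ae_all_iff.2 fun i =>
      mp_ae (iter_mp c.mp (s n i)) (c.Lp _ (hf i))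
    have a2 : ∀ᵐ z ∂m, ∀ i, L (f i) ((⇑T)^[s n i] z) ≤ 1 := ae_all_iff.2 fun i =>
      mp_ae (iter_mp c.mp (s n i)) (c.L_le (hf i))
    have a3 : ∀ᵐ z ∂m, ∀ i, L (it T (f i) (s n i)) z = L (f i) ((⇑T)^[s n i] z) :=
      ae_all_iff.2 fun i => c.L_it (hf i) _
    filter_upwards [c.Lp _ (hsum n), c.L_le (hsum n), a1, a2, a3] with z h1 h2 h3 h4 h5
    exact ⟨⟨h1, h2⟩, fun i => ⟨h3 i, h4 i⟩, h5⟩
  refine ToZ.integral ?_ ?_ ?_
  · refine hW.of_ae_le fun n => ?_
    filter_upwards [hprops n, c.multi hsub Finset.univ (fun i => it T (f i) (s n i))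
      (hfn n)] with z ⟨⟨h1, h2⟩, h3, h4⟩ h5
    have hp : 0 < ∏ i, L (f i) ((⇑T)^[s n i] z) := Finset.prod_pos fun i _ => (h3 i).1
    have hp1 : ∏ i, L (f i) ((⇑T)^[s n i] z) ≤ 1 :=
      Finset.prod_le_one (fun i _ => (h3 i).1.le) fun i _ => (h3 i).2
    refine (abs_sub_le_abs_log_sub h1 hp h2 hp1).trans ?_
    rw [Real.log_prod fun i _ => (h3 i).1.ne']
    have e1 : ∑ i, Real.log (L (f i) ((⇑T)^[s n i] z))
        = ∑ i, Real.log (L (it T (f i) (s n i)) z) :=
      Finset.sum_congr rfl fun i _ => by rw [h4 i]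
    rw [e1]
    exact h5.trans (le_abs_self _)
  · intro n
    exact (c.Lmeas _).sub (Finset.measurable_prod _ fun i _ =>
      (c.Lmeas _).comp (iter_meas T (s n i)))
  · intro n
    filter_upwards [hprops n] with z ⟨⟨h1, h2⟩, h3, h4⟩
    have hp : 0 < ∏ i, L (f i) ((⇑T)^[s n i] z) := Finset.prod_pos fun i _ => (h3 i).1
    have hp1 : ∏ i, L (f i) ((⇑T)^[s n i] z) ≤ 1 :=
      Finset.prod_le_one (fun i _ => (h3 i).1.le) fun i _ => (h3 i).2
    rw [abs_le]
    constructor <;> linarith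

/-- the multiplicative family -/
def fam (𝒜 : MeasurableSpace Z) (H : AddSubmonoid (Z → ℝ)) (χ : ℝ → ℂ) (χ0 : χ 0 = 1)
    (χadd : ∀ x y, χ (x + y) = χ x * χ y) : Submonoid (Z → ℂ) where
  carrier := {g | ∃ A, MeasurableSet[𝒜] A ∧ ∃ h ∈ H, g = A.indicator fun z => χ (h z)}
  one_mem' := by
    rw [Set.mem_ofPred_eq]
    refine ⟨univ, @MeasurableSet.univ _ 𝒜, 0, H.zero_mem, ?_⟩
    ext z
    simp [χ0]
  mul_mem' := by
    intro a b ha hb
    rw [Set.mem_ofPred_eq] at *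
    obtain ⟨A, hA, h, hh, rfl⟩ := ha
    obtain ⟨B, hB, g, hg, rfl⟩ := hb
    refine ⟨A ∩ B, @MeasurableSet.inter _ 𝒜 _ _ hA hB, h + g, H.add_mem hh hg, ?_⟩
    ext z
    simp only [Pi.mul_apply, Pi.add_apply]
    by_cases h1 : z ∈ A
    · by_cases h2 : z ∈ B
      · rw [indicator_of_mem h1, indicator_of_mem h2,
          indicator_of_mem (show z ∈ A ∩ B from ⟨h1, h2⟩), χadd]
      · rw [indicator_of_notMem h2,
          indicator_of_notMem (show z ∉ A ∩ B from fun h3 => h2 h3.2), mul_zero]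
    · rw [indicator_of_notMem h1,
        indicator_of_notMem (show z ∉ A ∩ B from fun h3 => h1 h3.1), zero_mul]

theorem mem_fam (𝒜 : MeasurableSpace Z) (H : AddSubmonoid (Z → ℝ)) (χ : ℝ → ℂ) (χ0 : χ 0 = 1)
    (χadd : ∀ x y, χ (x + y) = χ x * χ y) (g : Z → ℂ) : g ∈ fam 𝒜 H χ χ0 χadd ↔
    ∃ A, MeasurableSet[𝒜] A ∧ ∃ h ∈ H, g = A.indicator fun z => χ (h z) := Iff.rfl

end

end Pool.Agent.Y313.CE
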