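import Pool.Agent.Y313.CE.Abs2

set_option autoImplicit false
set_option linter.unusedSectionVars false

/-!
# Multiple mixing of the extension
-/

open MeasureTheory Set Filter Topology
open scoped ENNReal NNReal

namespace Pool.Agent.Y313.CE

open Pool.Agent.H716R2
open Pool.Agent.Y313.RM (mp_int mp_ae)

section
variable {Z : Type*} {𝒜 : MeasurableSpace Z} [mZ : MeasurableSpace Z]
variable {m : Measure Z} [IsProbabilityMeasure m] {T : Z ≃ᵐ Z} {H : AddSubmonoid (Z → ℝ)}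
  {χ : ℝ → ℂ} {L : (Z → ℝ) → Z → ℝ}

theorem Ctx.χsum (c : Ctx 𝒜 m T H χ L) {ι : Type*} (S : Finset ι) (f : ι → Z → ℝ) (z : Z) :
    χ ((∑ i ∈ S, f i) z) = ∏ i ∈ S, χ (f i z) := by
  classical
  induction S using Finset.induction_on with
  | empty => simp [c.χ0]
  | insert i S hi ih =>
    rw [Finset.sum_insert hi, Finset.prod_insert hi, ← ih, ← c.χadd]
    rfl

theorem Ctx.fam_Fam (c : Ctx 𝒜 m T H χ L)
    (hconj : ∀ h ∈ H, ∃ h' ∈ H, ∀ z, (starRingEnd ℂ) (χ (h z)) = χ (h' z)) :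
    Fam (fam 𝒜 H χ c.χ0 c.χadd) where
  meas := by
    intro f hf
    obtain ⟨A, hA, h, hh, rfl⟩ := (mem_fam _ _ _ _ _ _).1 hf
    exact (c.χmeas hh).indicator (c.le A hA)
  bdd := by
    intro f hf z
    obtain ⟨A, hA, h, hh, rfl⟩ := (mem_fam _ _ _ _ _ _).1 hf
    by_cases hz : z ∈ A
    · rw [indicator_of_mem hz]
      exact c.χb h hh z
    · rw [indicator_of_notMem hz]
      simp
  conj := by
    intro f hf
    obtain ⟨A, hA, h, hh, rfl⟩ := (mem_fam _ _ _ _ _ _).1 hf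
    obtain ⟨h', hh', e⟩ := hconj h hh
    refine (mem_fam _ _ _ _ _ _).2 ⟨A, hA, h', hh', ?_⟩
    ext z
    by_cases hz : z ∈ A
    · rw [indicator_of_mem hz, indicator_of_mem hz, e]
    · rw [indicator_of_notMem hz, indicator_of_notMem hz, map_zero]

/-- a bounded version of the transform -/
noncomputable def Lb (L : (Z → ℝ) → Z → ℝ) (h : Z → ℝ) (z : Z) : ℝ := max 0 (min (L h z) 1)

theorem Lb_le (L : (Z → ℝ) → Z → ℝ) (h : Z → ℝ) (z : Z) : |Lb L h z| ≤ 1 := by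
  unfold Lb
  rw [abs_of_nonneg (le_max_left _ _)]
  exact max_le zero_le_one (min_le_right _ _)

theorem Ctx.Lb_eq (c : Ctx 𝒜 m T H χ L) {h : Z → ℝ} (hh : h ∈ H) :
    ∀ᵐ z ∂m, Lb L h z = L h z := by
  filter_upwards [c.Lp h hh, c.L_le hh] with z h1 h2
  unfold Lb
  rw [min_eq_left h2, max_eq_right h1.le]

theorem Ctx.Lb_meas (c : Ctx 𝒜 m T H χ L) (h : Z → ℝ) : Measurable[𝒜] (Lb L h) := by
  have h1 : Measurable[𝒜] fun z => min (L h z) 1 :=
    Measurable.min (c.Lm h) (@measurable_const _ _ _ 𝒜 _)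
  exact Measurable.max (@measurable_const _ _ _ 𝒜 _) h1

theorem Ctx.set_int (c : Ctx 𝒜 m T H χ L) {h : Z → ℝ} (hh : h ∈ H) {A : Set Z}
    (hA : MeasurableSet[𝒜] A) : ∫ z in A, χ (h z) ∂m = ∫ z in A, ((L h z : ℝ) : ℂ) ∂m := by
  rw [← setIntegral_condExp c.le (c.χint hh) hA]
  refine setIntegral_congr_ae (c.le A hA) ?_
  filter_upwards [c.Le h hh] with z hz _
  exact hz

theorem Ctx.conv_fam (c : Ctx 𝒜 m T H χ L) {k : ℕ} (hS : MixOn 𝒜 m T k)
    (hsub : ∀ a ∈ H, ∀ b ∈ H, ∀ g ∈ H, ∀ᵐ z ∂m, |D L (a + b) g z| ≤ |D L a g z| + |D L b g z|)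
    (hpair : ∀ a ∈ H, ∀ b ∈ H, ToZ m fun n => D L a (it T b n))
    {s : ℕ → Fin (k + 1) → ℕ} (hs : Spread s) (g : Fin (k + 1) → Z → ℂ)
    (hg : ∀ i, g i ∈ fam 𝒜 H χ c.χ0 c.χadd) :
    Tendsto (fun n => ∫ z, ∏ i, g i ((⇑T)^[s n i] z) ∂m) atTop (𝓝 (∏ i, ∫ z, g i z ∂m)) := by
  choose A hA f hf hgf using fun i => (mem_fam _ _ _ _ _ _).1 (hg i)
  have hfn : ∀ n, ∑ i, it T (f i) (s n i) ∈ H := fun n =>
    H.sum_mem fun i _ => c.it_mem (hf i) _
  let B : ℕ → Set Z := fun n => ⋂ i, (⇑T)^[s n i] ⁻¹' A i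
  have hB : ∀ n, MeasurableSet[𝒜] (B n) := fun n =>
    @MeasurableSet.iInter _ _ 𝒜 _ _ fun i => iter_measA c.com _ (hA i)
  have hB' : ∀ n, MeasurableSet (B n) := fun n => c.le _ (hB n)
  have hmemB : ∀ n z, z ∈ B n ↔ ∀ i, (⇑T)^[s n i] z ∈ A i := fun n z => by
    simp [B]
  -- the left hand side
  have e1 : ∀ n, ∫ z, ∏ i, g i ((⇑T)^[s n i] z) ∂m
      = ∫ z in B n, ((L (∑ i, it T (f i) (s n i)) z : ℝ) : ℂ) ∂m := by
    intro n
    rw [← c.set_int (hfn n) (hB n), ← integral_indicator (hB' n)]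
    congr 1
    ext z
    by_cases hz : z ∈ B n
    · rw [indicator_of_mem hz, c.χsum]
      refine Finset.prod_congr rfl fun i _ => ?_
      rw [hgf i, indicator_of_mem ((hmemB n z).1 hz i)]
      rfl
    · rw [indicator_of_notMem hz]
      have : ∃ i, (⇑T)^[s n i] z ∉ A i := by
        by_contra hcon
        push Not at hcon
        exact hz ((hmemB n z).2 hcon)
      obtain ⟨i, hi⟩ := this
      refine Finset.prod_eq_zero (Finset.mem_univ i) ?_
      rw [hgf i, indicator_of_notMem hi]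
  have indA : ∀ i, Measurable[𝒜] ((A i).indicator fun z => ((Lb L (f i) z : ℝ) : ℂ)) := by
    intro i
    have h1 : Measurable[𝒜] fun z => ((Lb L (f i) z : ℝ) : ℂ) :=
      Complex.measurable_ofReal.comp (c.Lb_meas (f i))
    exact Measurable.indicator h1 (hA i)
  -- the base
  have h1 := base_fun c.mp c.le c.com hS hs
    (fun i => (A i).indicator fun z => ((Lb L (f i) z : ℝ) : ℂ)) (fun i =>
      (indA i)) (fun i => ⟨1, fun z => by
      by_cases hz : z ∈ A i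
      · rw [indicator_of_mem hz, Complex.norm_real]
        exact Lb_le L (f i) z
      · rw [indicator_of_notMem hz]
        simp⟩)
  have e2 : ∏ i, ∫ z, (A i).indicator (fun z => ((Lb L (f i) z : ℝ) : ℂ)) z ∂m
      = ∏ i, ∫ z, g i z ∂m := by
    refine Finset.prod_congr rfl fun i _ => ?_
    rw [hgf i, integral_indicator (c.le _ (hA i)), integral_indicator (c.le _ (hA i)),
      c.set_int (hf i) (hA i)]
    refine setIntegral_congr_ae (c.le _ (hA i)) ?_
    filter_upwards [c.Lb_eq (hf i)] with z hz _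
    rw [hz]
  have e3 : ∀ n, ∫ z, ∏ i, (A i).indicator (fun z => ((Lb L (f i) z : ℝ) : ℂ)) ((⇑T)^[s n i] z) ∂m
      = ∫ z in B n, ((∏ i, Lb L (f i) ((⇑T)^[s n i] z) : ℝ) : ℂ) ∂m := by
    intro n
    rw [← integral_indicator (hB' n)]
    congr 1
    ext z
    by_cases hz : z ∈ B n
    · rw [indicator_of_mem hz, Complex.ofReal_prod]
      refine Finset.prod_congr rfl fun i _ => ?_
      rw [indicator_of_mem ((hmemB n z).1 hz i)]
    · rw [indicator_of_notMem hz]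
      have : ∃ i, (⇑T)^[s n i] z ∉ A i := by
        by_contra hcon
        push Not at hcon
        exact hz ((hmemB n z).2 hcon)
      obtain ⟨i, hi⟩ := this
      refine Finset.prod_eq_zero (Finset.mem_univ i) ?_
      rw [indicator_of_notMem hi]
  rw [e2] at h1
  have h2 := c.close hsub hpair hs hf
  have h3 : Tendsto (fun n => (∫ z, ∏ i, g i ((⇑T)^[s n i] z) ∂m)
      - ∫ z, ∏ i, (A i).indicator (fun z => ((Lb L (f i) z : ℝ) : ℂ)) ((⇑T)^[s n i] z) ∂m)
      atTop (𝓝 0) := by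
    refine squeeze_zero_norm (fun n => ?_) h2
    have mL1 : Measurable fun z => L (∑ i, it T (f i) (s n i)) z := c.Lmeas _
    have mL2 : Measurable fun z => ∏ i, Lb L (f i) ((⇑T)^[s n i] z) :=
      Finset.measurable_prod _ fun i _ =>
        ((c.Lb_meas (f i)).mono c.le le_rfl).comp (iter_meas T (s n i))
    have b1 : ∀ᵐ z ∂m, ‖((L (∑ i, it T (f i) (s n i)) z : ℝ) : ℂ)‖ ≤ 1 := by
      filter_upwards [c.Lp _ (hfn n), c.L_le (hfn n)] with z a1 a2
      rw [Complex.norm_real, Real.norm_eq_abs, abs_of_pos a1]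
      exact a2
    have b2 : ∀ z, ‖((∏ i, Lb L (f i) ((⇑T)^[s n i] z) : ℝ) : ℂ)‖ ≤ 1 := by
      intro z
      rw [Complex.norm_real, Real.norm_eq_abs, Finset.abs_prod]
      exact Finset.prod_le_one (fun i _ => abs_nonneg _) fun i _ => Lb_le L (f i) _
    have i1 : Integrable (fun z => ((L (∑ i, it T (f i) (s n i)) z : ℝ) : ℂ)) m :=
      Integrable.of_bound (Complex.measurable_ofReal.comp mL1).aestronglyMeasurable 1 b1
    have i2 : Integrable (fun z => ((∏ i, Lb L (f i) ((⇑T)^[s n i] z) : ℝ) : ℂ)) m :=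
      Integrable.of_bound (Complex.measurable_ofReal.comp mL2).aestronglyMeasurable 1
        (Eventually.of_forall b2)
    rw [e1, e3, ← integral_sub i1.integrableOn i2.integrableOn]
    refine (norm_integral_le_integral_norm _).trans ?_
    have hlb : ∀ᵐ z ∂m, ∀ i, Lb L (f i) ((⇑T)^[s n i] z) = L (f i) ((⇑T)^[s n i] z) :=
      ae_all_iff.2 fun i => mp_ae (iter_mp c.mp (s n i)) (c.Lb_eq (hf i))
    have e4 : ∫ z in B n, ‖((L (∑ i, it T (f i) (s n i)) z : ℝ) : ℂ)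
        - ((∏ i, Lb L (f i) ((⇑T)^[s n i] z) : ℝ) : ℂ)‖ ∂m
        ≤ ∫ z, ‖((L (∑ i, it T (f i) (s n i)) z : ℝ) : ℂ)
        - ((∏ i, Lb L (f i) ((⇑T)^[s n i] z) : ℝ) : ℂ)‖ ∂m :=
      setIntegral_le_integral (i1.sub i2).norm (Eventually.of_forall fun z => norm_nonneg _)
    refine e4.trans (le_of_eq ?_)
    refine integral_congr_ae ?_
    filter_upwards [hlb] with z hz
    rw [← Complex.ofReal_sub, Complex.norm_real, Real.norm_eq_abs]
    congr 2
    exact Finset.prod_congr rfl fun i _ => hz i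
  have h4 := h3.add h1
  rw [zero_add] at h4
  refine h4.congr fun n => ?_
  ring

theorem Ctx.main (c : Ctx 𝒜 m T H χ L) {k : ℕ} (hS : MixOn 𝒜 m T k)
    (hsub : ∀ a ∈ H, ∀ b ∈ H, ∀ g ∈ H, ∀ᵐ z ∂m, |D L (a + b) g z| ≤ |D L a g z| + |D L b g z|)
    (hpair : ∀ a ∈ H, ∀ b ∈ H, ToZ m fun n => D L a (it T b n))
    (hconj : ∀ h ∈ H, ∃ h' ∈ H, ∀ z, (starRingEnd ℂ) (χ (h z)) = χ (h' z))
    (hgen : ∀ B, MeasurableSet B →
      ∃ B', MeasurableSet[sig (fam 𝒜 H χ c.χ0 c.χadd)] B' ∧ B =ᵐ[m] B') :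
    FactSet m T (k + 1) :=
  up (c.fam_Fam hconj) hgen c.mp fun _ hs g hg => c.conv_fam hS hsub hpair hs g hg

theorem Ctx.pull (c : Ctx 𝒜 m T H χ L) {h : Z → ℝ} (hh : h ∈ H) {W : Z → ℝ}
    (hW : Measurable[𝒜] W) {C : ℝ} (hb : ∀ z, |W z| ≤ C) :
    ∫ z, ((W z : ℝ) : ℂ) * χ (h z) ∂m = ∫ z, ((W z * L h z : ℝ) : ℂ) ∂m := by
  have hW' : Measurable W := hW.mono c.le le_rfl
  have e1 : (fun z => ((W z : ℝ) : ℂ) * χ (h z)) = W • fun z => χ (h z) := by
    ext z
    rw [Pi.smul_apply', Complex.real_smul]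
  have i1 : Integrable (W • fun z => χ (h z)) m := by
    rw [← e1]
    refine Integrable.of_bound
      ((Complex.measurable_ofReal.comp hW').mul (c.χmeas hh)).aestronglyMeasurable C
      (Eventually.of_forall fun z => ?_)
    rw [norm_mul, Complex.norm_real, Real.norm_eq_abs]
    have h1 := c.χb h hh z
    have h2 := hb z
    have h3 := abs_nonneg (W z)
    have h4 := norm_nonneg (χ (h z))
    nlinarith
  have h1 := condExp_smul_of_aestronglyMeasurable_left (m := 𝒜) (μ := m)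
    (StronglyMeasurable.aestronglyMeasurable hW.stronglyMeasurable) i1 (c.χint hh)
  rw [e1, ← integral_condExp c.le]
  refine integral_congr_ae ?_
  filter_upwards [h1, c.Le h hh] with z a1 a2
  rw [a1, Pi.smul_apply', a2, Complex.real_smul, Complex.ofReal_mul]

/-- The integral of the quotient of the transforms along two times. -/
theorem Ctx.pair (c : Ctx 𝒜 m T H χ L) (h2 : FactSet m T 2) {a b : Z → ℝ} (ha : a ∈ H)
    (hb : b ∈ H) {δ : ℝ} (hδ : 0 < δ) :
    Tendsto (fun n => ∫ z in {z | δ ≤ L a z} ∩ (⇑T)^[n] ⁻¹' {z | δ ≤ L b z},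
      Real.exp (D L a (it T b n) z) ∂m) atTop
      (𝓝 (m.real {z | δ ≤ L a z} * m.real {z | δ ≤ L b z})) := by
  -- the weights
  have hA : ∀ h : Z → ℝ, MeasurableSet[𝒜] {z | δ ≤ L h z} := fun h =>
    @measurableSet_le _ _ _ _ _ 𝒜 _ _ _ _ _ (@measurable_const _ _ _ 𝒜 _) (c.Lm h)
  let w : (Z → ℝ) → Z → ℝ := fun h => {z | δ ≤ L h z}.indicator fun z => (L h z)⁻¹
  have wm : ∀ h, Measurable[𝒜] (w h) := by
    intro h
    have h1 : Measurable[𝒜] fun z => (L h z)⁻¹ := Measurable.inv (c.Lm h)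
    exact Measurable.indicator h1 (hA h)
  have wb : ∀ h z, |w h z| ≤ δ⁻¹ := by
    intro h z
    simp only [w]
    by_cases hz : z ∈ {z | δ ≤ L h z}
    · rw [indicator_of_mem hz]
      have hz' : δ ≤ L h z := hz
      have hp : 0 < L h z := hδ.trans_le hz'
      rw [abs_of_nonneg (by positivity)]
      exact inv_anti₀ hδ hz'
    · rw [indicator_of_notMem hz, abs_zero]
      positivity
  have hs : Spread (r := 2) fun n => ![0, n] := by
    intro N
    filter_upwards [eventually_ge_atTop N] with n hn i j hij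
    fin_cases i <;> fin_cases j <;> simp_all
  let g : Fin 2 → Z → ℂ := ![fun z => ((w a z : ℝ) : ℂ) * χ (a z),
    fun z => ((w b z : ℝ) : ℂ) * χ (b z)]
  have gm : ∀ {h : Z → ℝ} (_ : h ∈ H), Measurable fun z => ((w h z : ℝ) : ℂ) * χ (h z) :=
    fun {h} hh => (Complex.measurable_ofReal.comp ((wm h).mono c.le le_rfl)).mul (c.χmeas hh)
  have gb : ∀ {h : Z → ℝ} (_ : h ∈ H) (z : Z), ‖((w h z : ℝ) : ℂ) * χ (h z)‖ ≤ δ⁻¹ := by
    intro h hh z
    rw [norm_mul, Complex.norm_real, Real.norm_eq_abs]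
    have h1 := c.χb h hh z
    have h2 := wb h z
    have h3 := abs_nonneg (w h z)
    have h4 := norm_nonneg (χ (h z))
    nlinarith
  have h1 := fact_fun c.mp h2 hs g (by
    intro i
    fin_cases i
    · exact gm ha
    · exact gm hb) (by
    intro i
    fin_cases i
    · exact ⟨δ⁻¹, gb ha⟩
    · exact ⟨δ⁻¹, gb hb⟩)
  have e1 : ∀ {h : Z → ℝ} (_ : h ∈ H), ∫ z, ((w h z : ℝ) : ℂ) * χ (h z) ∂m
      = ((m.real {z | δ ≤ L h z} : ℝ) : ℂ) := by
    intro h hh
    rw [c.pull hh (wm h) (wb h), integral_complex_ofReal]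
    congr 1
    rw [← integral_indicator_one (c.le _ (hA h))]
    refine integral_congr_ae (Eventually.of_forall fun z => ?_)
    simp only [w]
    by_cases hz : z ∈ {z | δ ≤ L h z}
    · rw [indicator_of_mem hz, indicator_of_mem hz]
      have hz' : δ ≤ L h z := hz
      have hp : 0 < L h z := hδ.trans_le hz'
      rw [inv_mul_cancel₀ hp.ne']
      rfl
    · rw [indicator_of_notMem hz, indicator_of_notMem hz, zero_mul]
  have e2 : ∀ n, ∫ z, ∏ i, g i ((⇑T)^[(![0, n] : Fin 2 → ℕ) i] z) ∂m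
      = ((∫ z in {z | δ ≤ L a z} ∩ (⇑T)^[n] ⁻¹' {z | δ ≤ L b z},
      Real.exp (D L a (it T b n) z) ∂m : ℝ) : ℂ) := by
    intro n
    have hbn := c.it_mem hb n
    have hW : Measurable[𝒜] fun z => w a z * w b ((⇑T)^[n] z) :=
      Measurable.mul (wm a) ((wm b).comp (iter_measA c.com n))
    have e3 : ∀ z, ∏ i, g i ((⇑T)^[(![0, n] : Fin 2 → ℕ) i] z)
        = ((w a z * w b ((⇑T)^[n] z) : ℝ) : ℂ) * χ ((a + it T b n) z) := by
      intro z
      rw [Fin.prod_univ_two]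
      simp only [g, Matrix.cons_val_zero, Matrix.cons_val_one, Function.iterate_zero, id,
        Pi.add_apply, c.χadd, it, Complex.ofReal_mul]
      ring
    simp only [e3]
    rw [c.pull (H.add_mem ha hbn) hW (C := δ⁻¹ * δ⁻¹) (fun z => by
      rw [abs_mul]
      exact mul_le_mul (wb a z) (wb b _) (abs_nonneg _) (by positivity)),
      integral_complex_ofReal]
    congr 1
    have mS : MeasurableSet ({z | δ ≤ L a z} ∩ (⇑T)^[n] ⁻¹' {z | δ ≤ L b z}) :=
      (c.le _ (hA a)).inter ((iter_meas T n) (c.le _ (hA b)))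
    rw [← integral_indicator mS]
    refine integral_congr_ae ?_
    filter_upwards [c.L_it hb n, c.Lp _ (H.add_mem ha hbn)] with z h3 h4
    simp only [w]
    by_cases hz : z ∈ {z | δ ≤ L a z}
    · by_cases hz2 : (⇑T)^[n] z ∈ {z | δ ≤ L b z}
      · rw [indicator_of_mem hz, indicator_of_mem hz2, indicator_of_mem
          (show z ∈ {z | δ ≤ L a z} ∩ (⇑T)^[n] ⁻¹' {z | δ ≤ L b z} from ⟨hz, hz2⟩)]
        have p1 : 0 < L a z := hδ.trans_le hz
        have p2 : 0 < L b ((⇑T)^[n] z) := hδ.trans_le hz2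
        simp only [D]
        rw [h3, Real.exp_sub, Real.exp_sub, Real.exp_log h4, Real.exp_log p1, Real.exp_log p2]
        field_simp
      · rw [indicator_of_notMem hz2, indicator_of_notMem
          (show z ∉ {z | δ ≤ L a z} ∩ (⇑T)^[n] ⁻¹' {z | δ ≤ L b z} from fun h => hz2 h.2)]
        ring
    · rw [indicator_of_notMem hz, indicator_of_notMem
        (show z ∉ {z | δ ≤ L a z} ∩ (⇑T)^[n] ⁻¹' {z | δ ≤ L b z} from fun h => hz h.1)]
      ring
  simp only [e2] at h1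
  rw [Fin.prod_univ_two] at h1
  have e4 : (∫ z, g 0 z ∂m) * ∫ z, g 1 z ∂m
      = ((m.real {z | δ ≤ L a z} * m.real {z | δ ≤ L b z} : ℝ) : ℂ) := by
    have a1 : ∫ z, g 0 z ∂m = ((m.real {z | δ ≤ L a z} : ℝ) : ℂ) := e1 ha
    have a2 : ∫ z, g 1 z ∂m = ((m.real {z | δ ≤ L b z} : ℝ) : ℂ) := e1 hb
    rw [a1, a2, Complex.ofReal_mul]
  rw [e4] at h1
  exact (Complex.continuous_re.tendsto _).comp h1

end

end Pool.Agent.Y313.CE
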