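import Pool.Agent.Y313.CE.Up

set_option autoImplicit false
set_option linter.unusedSectionVars false

/-!
# The base factor and conditional expectations
-/

open MeasureTheory Set Filter Topology
open scoped ENNReal NNReal

namespace Pool.Agent.Y313.CE

open Pool.Agent.H716R2

section
variable {Z : Type*} {𝒜 : MeasurableSpace Z} [mZ : MeasurableSpace Z]

/-- mixing of multiplicity `k` for the sets of a sub-σ-algebra -/
def MixOn {Z : Type*} (𝒜 : MeasurableSpace Z) [mZ : MeasurableSpace Z] (m : Measure Z)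
    (T : Z ≃ᵐ Z) (k : ℕ) : Prop :=
  ∀ A : ℕ → Set Z, (∀ i, MeasurableSet[𝒜] (A i)) → ∀ ε : ℝ, 0 < ε →
    ∃ N : ℕ, ∀ g : ℕ → ℕ, (∀ j < k, N ≤ g j) →
      |m.real (⋂ i ∈ Finset.range (k + 1), (⇑T)^[∑ j ∈ Finset.range i, g j] ⁻¹' A i)
        - ∏ i ∈ Finset.range (k + 1), m.real (A i)| < ε

theorem meas_of_comap {T : Z ≃ᵐ Z} (hTA : 𝒜.comap T = 𝒜) :
    Measurable[𝒜, 𝒜] (T : Z → Z) := by
  rw [measurable_iff_comap_le, hTA]

theorem meas_symm_of_comap {T : Z ≃ᵐ Z} (hTA : 𝒜.comap T = 𝒜) :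
    Measurable[𝒜, 𝒜] (T.symm : Z → Z) := by
  rw [measurable_iff_comap_le]
  have h : 𝒜.comap T.symm = (𝒜.comap T).comap T.symm := by rw [hTA]
  rw [h, MeasurableSpace.comap_comp]
  have : (T : Z → Z) ∘ T.symm = id := by
    ext z
    simp
  rw [this, MeasurableSpace.comap_id]

/-- the automorphism of the factor -/
def autA {T : Z ≃ᵐ Z} (hTA : 𝒜.comap T = 𝒜) :
    @MeasurableEquiv Z Z 𝒜 𝒜 :=
  @MeasurableEquiv.mk Z Z 𝒜 𝒜 T.toEquiv (meas_of_comap hTA) (meas_symm_of_comap hTA)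

theorem iter_comap {T : Z ≃ᵐ Z} (hTA : 𝒜.comap T = 𝒜) (n : ℕ) :
    𝒜.comap ((⇑T)^[n]) = 𝒜 := by
  induction n with
  | zero => exact MeasurableSpace.comap_id
  | succ n ih =>
    rw [Function.iterate_succ, ← MeasurableSpace.comap_comp, ih, hTA]

theorem iter_measA {T : Z ≃ᵐ Z} (hTA : 𝒜.comap T = 𝒜) (n : ℕ) :
    Measurable[𝒜, 𝒜] ((⇑T)^[n]) := by
  rw [measurable_iff_comap_le, iter_comap hTA]

theorem base_fun {m : Measure Z} [IsProbabilityMeasure m] {T : Z ≃ᵐ Z}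
    (hT : MeasurePreserving T m m) (hA : 𝒜 ≤ mZ)
    (hTA : 𝒜.comap T = 𝒜) {k : ℕ} (hS : MixOn 𝒜 m T k) {s : ℕ → Fin (k + 1) → ℕ}
    (hs : Spread s) (g : Fin (k + 1) → Z → ℂ) (hg : ∀ i, Measurable[𝒜] (g i))
    (hb : ∀ i, ∃ C : ℝ, ∀ z, ‖g i z‖ ≤ C) :
    Tendsto (fun n => ∫ z, ∏ i, g i ((⇑T)^[s n i] z) ∂m) atTop (𝓝 (∏ i, ∫ z, g i z ∂m)) := by
  let mA : @Measure Z 𝒜 := m.trim hA
  have pA : @IsProbabilityMeasure Z 𝒜 mA := by
    refine @IsProbabilityMeasure.mk Z 𝒜 mA ?_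
    rw [trim_measurableSet_eq hA (@MeasurableSet.univ Z 𝒜)]
    exact measure_univ
  have hTm : @MeasurePreserving Z Z 𝒜 𝒜 (autA hTA) mA mA := by
    have hmeas : Measurable[𝒜, 𝒜] (T : Z → Z) := meas_of_comap hTA
    have hmp : @MeasurePreserving Z Z 𝒜 𝒜 (T : Z → Z) mA mA := by
      refine @MeasurePreserving.mk Z Z 𝒜 𝒜 (T : Z → Z) mA mA hmeas ?_
      refine @Measure.ext Z 𝒜 _ mA fun B hB => ?_
      rw [@Measure.map_apply Z Z 𝒜 𝒜 mA (T : Z → Z) hmeas B hB]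
      have h1 : MeasurableSet[𝒜] (T ⁻¹' B) := hmeas hB
      rw [trim_measurableSet_eq hA hB, trim_measurableSet_eq hA h1]
      exact hT.measure_preimage (hA B hB).nullMeasurableSet
    exact hmp
  have hmk : @MixK Z 𝒜 mA (autA hTA) k := by
    intro A hAm ε hε
    obtain ⟨N, hN⟩ := hS A hAm ε hε
    refine ⟨N, fun g hg => ?_⟩
    have h1 := hN g hg
    have e1 : ∀ B, MeasurableSet[𝒜] B → @Measure.real Z 𝒜 mA B = m.real B := by
      intro B hB
      simp only [Measure.real]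
      rw [trim_measurableSet_eq hA hB]
    have h2 : MeasurableSet[𝒜] (⋂ i ∈ Finset.range (k + 1),
        (⇑T)^[∑ j ∈ Finset.range i, g j] ⁻¹' A i) :=
      Finset.measurableSet_biInter _ fun i _ => iter_measA hTA _ (hAm i)
    have e2 : ∏ i ∈ Finset.range (k + 1), @Measure.real Z 𝒜 mA (A i)
        = ∏ i ∈ Finset.range (k + 1), m.real (A i) :=
      Finset.prod_congr rfl fun i _ => e1 _ (hAm i)
    rw [e2]
    have e3 := e1 _ h2
    exact e3 ▸ h1
  have hfA := @factSet_of_mixK Z 𝒜 mA pA (autA hTA) hTm k hmk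
  have h1 := @fact_fun Z 𝒜 ℂ _ mA pA (autA hTA) hTm (k + 1) hfA s hs g hg hb
  have e1 : ∀ n, @integral Z ℂ _ _ 𝒜 mA (fun z => ∏ i, g i ((⇑T)^[s n i] z))
      = ∫ z, ∏ i, g i ((⇑T)^[s n i] z) ∂m := by
    intro n
    refine (integral_trim hA ?_).symm
    have : Measurable[𝒜] (fun z => ∏ i, g i ((⇑T)^[s n i] z)) :=
      @Finset.measurable_prod _ _ _ _ _ _ _ _ _ (fun i _ => (hg i).comp (iter_measA hTA (s n i)))
    exact this.stronglyMeasurable
  have e2 : ∏ i, @integral Z ℂ _ _ 𝒜 mA (g i) = ∏ i, ∫ z, g i z ∂m := by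
    refine Finset.prod_congr rfl fun i _ => ?_
    exact (integral_trim hA (hg i).stronglyMeasurable).symm
  rw [← e2]
  exact h1.congr e1

theorem condExp_comp {E : Type*} [NormedAddCommGroup E] [NormedSpace ℝ E] [CompleteSpace E]
    {m : Measure Z} [IsProbabilityMeasure m] {σ : Z → Z}
    (hσ : MeasurePreserving σ m m) (hA : 𝒜 ≤ mZ)
    (hσA : 𝒜.comap σ = 𝒜) {f : Z → E} (hf : Integrable f m) :
    m[fun z => f (σ z) | 𝒜] =ᵐ[m] fun z => (m[f | 𝒜]) (σ z) := by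
  have hmσ : Measurable[𝒜, 𝒜] σ := by
    rw [measurable_iff_comap_le, hσA]
  have hf' : Integrable (fun z => f (σ z)) m := (hσ.integrable_comp hf.1).2 hf
  have hc : Integrable (m[f | 𝒜]) m := integrable_condExp
  have hc' : Integrable (fun z => (m[f | 𝒜]) (σ z)) m := (hσ.integrable_comp hc.1).2 hc
  refine (ae_eq_condExp_of_forall_setIntegral_eq hA hf' (fun _ _ _ => hc'.integrableOn) ?_ ?_).symm
  · intro B hB _
    rw [← hσA] at hB
    obtain ⟨B', hB', rfl⟩ := hB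
    have e1 : ∀ {u : Z → E} (_ : AEStronglyMeasurable u m),
        ∫ z in σ ⁻¹' B', u (σ z) ∂m = ∫ z in B', u z ∂m := by
      intro u hu
      have h1 := setIntegral_map (μ := m) (g := σ) (f := u) (hA B' hB') (by rwa [hσ.map_eq])
        hσ.measurable.aemeasurable
      rw [hσ.map_eq] at h1
      exact h1.symm
    rw [e1 hc.1, e1 hf.1]
    exact setIntegral_condExp hA hf hB'
  · exact (stronglyMeasurable_condExp.comp_measurable hmσ).aestronglyMeasurable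

end

end Pool.Agent.Y313.CE
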