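import Pool.Agent.Y313.CE.Uniq

set_option autoImplicit false
set_option linter.unusedSectionVars false

/-!
# Density of multiplicative families
-/

open MeasureTheory Set Filter Topology
open scoped ENNReal NNReal

namespace Pool.Agent.Y313.CE

section
variable {Z : Type*} [mZ : MeasurableSpace Z]

/-- A real integrable function which is orthogonal to the family vanishes. -/
theorem Fam.real_zero {M : Submonoid (Z → ℂ)} (hM : Fam M) {m : Measure Z} [IsProbabilityMeasure m]
    (hgen : ∀ B, MeasurableSet B → ∃ B', MeasurableSet[sig M] B' ∧ B =ᵐ[m] B')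
    {r : Z → ℝ} (hr : Measurable r) (ri : Integrable r m)
    (h : ∀ f ∈ M, ∫ z, f z * (r z : ℂ) ∂m = 0) : r =ᵐ[m] 0 := by
  let ν : Measure Z := m.withDensity fun z => ENNReal.ofReal (r z)
  let ν' : Measure Z := m.withDensity fun z => ENNReal.ofReal (-r z)
  have fν : IsFiniteMeasure ν := isFiniteMeasure_withDensity_ofReal ri.hasFiniteIntegral
  have fν' : IsFiniteMeasure ν' := isFiniteMeasure_withDensity_ofReal ri.neg.hasFiniteIntegral
  have hr' : Measurable fun z => -r z := hr.neg
  have hint : ∀ f ∈ M, ∫ z, f z ∂ν = ∫ z, f z ∂ν' := by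
    intro f hf
    have e1 : ∫ z, f z ∂ν = ∫ z, ((max (r z) 0 : ℝ) : ℂ) * f z ∂m := by
      rw [integral_withDensity_eq_integral_toReal_smul hr.ennreal_ofReal
        (Eventually.of_forall fun z => ENNReal.ofReal_lt_top)]
      refine integral_congr_ae (Eventually.of_forall fun z => ?_)
      simp only [ENNReal.toReal_ofReal']
      rw [Complex.real_smul]
    have e2 : ∫ z, f z ∂ν' = ∫ z, ((max (-r z) 0 : ℝ) : ℂ) * f z ∂m := by
      rw [integral_withDensity_eq_integral_toReal_smul hr'.ennreal_ofReal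
        (Eventually.of_forall fun z => ENNReal.ofReal_lt_top)]
      refine integral_congr_ae (Eventually.of_forall fun z => ?_)
      simp only [ENNReal.toReal_ofReal']
      rw [Complex.real_smul]
    have i1 : Integrable (fun z => ((max (r z) 0 : ℝ) : ℂ) * f z) m :=
      (ri.pos_part.ofReal).mul_bdd (c := 1) (hM.meas f hf).aestronglyMeasurable
        (Eventually.of_forall (hM.bdd f hf))
    have i2 : Integrable (fun z => ((max (-r z) 0 : ℝ) : ℂ) * f z) m :=
      (ri.neg.pos_part.ofReal).mul_bdd (c := 1) (hM.meas f hf).aestronglyMeasurable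
        (Eventually.of_forall (hM.bdd f hf))
    rw [e1, e2, ← sub_eq_zero, ← integral_sub i1 i2, ← h f hf]
    refine integral_congr_ae (Eventually.of_forall fun z => ?_)
    have h1 : max (r z) 0 - max (-r z) 0 = r z := by
      rcases le_total 0 (r z) with h2 | h2
      · rw [max_eq_left h2, max_eq_right (by linarith)]; ring
      · rw [max_eq_right h2, max_eq_left (by linarith)]; ring
    have h3 : ((r z : ℝ) : ℂ) = ((max (r z) 0 : ℝ) : ℂ) - ((max (-r z) 0 : ℝ) : ℂ) := by
      rw [← Complex.ofReal_sub, h1]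
    simp only
    rw [h3]
    ring
  have hac : ν ≪ m := withDensity_absolutelyContinuous _ _
  have hac' : ν' ≪ m := withDensity_absolutelyContinuous _ _
  have hB : ∀ B, MeasurableSet B → ν B = ν' B := by
    intro B hB
    obtain ⟨B', hB', e⟩ := hgen B hB
    rw [measure_congr (hac.ae_le e), measure_congr (hac'.ae_le e)]
    exact uniq hM hint hB'
  have hνν : ν = ν' := Measure.ext hB
  have h2 : (fun z => ENNReal.ofReal (r z)) =ᵐ[m] fun z => ENNReal.ofReal (-r z) :=
    (withDensity_eq_iff hr.ennreal_ofReal.aemeasurable hr'.ennreal_ofReal.aemeasurable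
      (by
        have := measure_ne_top ν univ
        rwa [withDensity_apply _ MeasurableSet.univ, Measure.restrict_univ] at this)).1 hνν
  filter_upwards [h2] with z hz
  simp only [Pi.zero_apply]
  rcases le_total 0 (r z) with h3 | h3
  · have h4 : ENNReal.ofReal (-r z) = 0 := ENNReal.ofReal_of_nonpos (by linarith)
    rw [h4] at hz
    exact le_antisymm (ENNReal.ofReal_eq_zero.1 hz) h3
  · have h4 : ENNReal.ofReal (r z) = 0 := ENNReal.ofReal_of_nonpos h3
    rw [h4] at hz
    have := ENNReal.ofReal_eq_zero.1 hz.symm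
    linarith

/-- The span of the family is dense. -/
theorem Fam.dense {M : Submonoid (Z → ℂ)} (hM : Fam M) {m : Measure Z} [IsProbabilityMeasure m]
    (hgen : ∀ B, MeasurableSet B → ∃ B', MeasurableSet[sig M] B' ∧ B =ᵐ[m] B')
    {φ : Z → ℂ} (hφ : MemLp φ 2 m) {ε : ℝ} (hε : 0 < ε) :
    ∃ p ∈ Submodule.span ℂ (M : Set (Z → ℂ)), ∫ z, ‖φ z - p z‖ ∂m < ε := by
  have hMp : ∀ p ∈ Submodule.span ℂ (M : Set (Z → ℂ)), Measurable p ∧ ∃ C : ℝ, ∀ z, ‖p z‖ ≤ C := by
    intro p hp
    induction hp using Submodule.span_induction with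
    | mem x hx => exact ⟨hM.meas x hx, 1, hM.bdd x hx⟩
    | zero => exact ⟨measurable_const, 0, fun z => by simp⟩
    | add x y _ _ hx hy =>
      obtain ⟨a1, C1, b1⟩ := hx
      obtain ⟨a2, C2, b2⟩ := hy
      exact ⟨a1.add a2, C1 + C2, fun z => (norm_add_le _ _).trans (add_le_add (b1 z) (b2 z))⟩
    | smul a x _ hx =>
      obtain ⟨a1, C1, b1⟩ := hx
      exact ⟨a1.const_smul a, ‖a‖ * C1, fun z => by
        rw [Pi.smul_apply, norm_smul]
        exact mul_le_mul_of_nonneg_left (b1 z) (norm_nonneg _)⟩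
  have hL : ∀ p ∈ Submodule.span ℂ (M : Set (Z → ℂ)), MemLp p 2 m := by
    intro p hp
    obtain ⟨a, C, b⟩ := hMp p hp
    exact MemLp.of_bound a.aestronglyMeasurable C (Eventually.of_forall b)
  let K : Submodule ℂ (Lp ℂ 2 m) :=
    { carrier := {g | ∃ p ∈ Submodule.span ℂ (M : Set (Z → ℂ)), (g : Z → ℂ) =ᵐ[m] p}
      zero_mem' := by
        rw [Set.mem_ofPred_eq]
        exact ⟨0, Submodule.zero_mem _, Lp.coeFn_zero _ _ _⟩
      add_mem' := by
        intro a b ha hb
        rw [Set.mem_ofPred_eq] at *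
        obtain ⟨p, hp, ep⟩ := ha
        obtain ⟨q, hq, eq⟩ := hb
        exact ⟨p + q, Submodule.add_mem _ hp hq, (Lp.coeFn_add a b).trans (ep.add eq)⟩
      smul_mem' := by
        intro c a ha
        rw [Set.mem_ofPred_eq] at *
        obtain ⟨p, hp, ep⟩ := ha
        exact ⟨c • p, Submodule.smul_mem _ _ hp, (Lp.coeFn_smul c a).trans (ep.const_smul c)⟩ }
  have hKm : ∀ g : Lp ℂ 2 m, g ∈ K ↔ ∃ p ∈ Submodule.span ℂ (M : Set (Z → ℂ)),
      (g : Z → ℂ) =ᵐ[m] p := fun g => Iff.rfl
  have hKperp : Kᗮ = ⊥ := by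
    rw [Submodule.eq_bot_iff]
    intro g hg
    have hg1 : ∀ f ∈ M, ∫ z, (starRingEnd ℂ) (f z) * g z ∂m = 0 := by
      intro f hf
      have hfs := Submodule.subset_span (R := ℂ) (s := (M : Set (Z → ℂ))) hf
      let f' : Lp ℂ 2 m := (hL f hfs).toLp f
      have hf' : f' ∈ K := (hKm f').2 ⟨f, hfs, (hL f hfs).coeFn_toLp⟩
      have h1 := (Submodule.mem_orthogonal K g).1 hg f' hf'
      rw [L2.inner_def] at h1
      rw [← h1]
      refine integral_congr_ae ?_
      filter_upwards [(hL f hfs).coeFn_toLp] with z hz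
      simp only [f']
      rw [hz, RCLike.inner_apply]
      ring
    have hg2 : ∀ f ∈ M, ∫ z, f z * g z ∂m = 0 := by
      intro f hf
      have := hg1 _ (hM.conj f hf)
      simpa using this
    have gi : Integrable (fun z => g z) m := (Lp.memLp g).integrable (by norm_num)
    obtain ⟨g', mg', eg'⟩ : ∃ g' : Z → ℂ, Measurable g' ∧ (g : Z → ℂ) =ᵐ[m] g' :=
      ⟨_, (Lp.aestronglyMeasurable g).stronglyMeasurable_mk.measurable,
        (Lp.aestronglyMeasurable g).ae_eq_mk⟩
    have gi' : Integrable g' m := gi.congr eg'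
    have k1 : ∀ f ∈ M, ∫ z, f z * g' z ∂m = 0 := by
      intro f hf
      rw [← hg2 f hf]
      refine integral_congr_ae ?_
      filter_upwards [eg'] with z hz
      rw [hz]
    have k2 : ∀ f ∈ M, ∫ z, f z * (starRingEnd ℂ) (g' z) ∂m = 0 := by
      intro f hf
      have h1 := k1 _ (hM.conj f hf)
      have h2 := congrArg (starRingEnd ℂ) h1
      rw [← integral_conj, map_zero] at h2
      simpa using h2
    have gic : Integrable (fun z => (starRingEnd ℂ) (g' z)) m :=
      gi'.mono (Complex.continuous_conj.measurable.comp mg').aestronglyMeasurable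
        (Eventually.of_forall fun z => by rw [RCLike.norm_conj])
    have fgi : ∀ f ∈ M, Integrable (fun z => f z * g' z) m := fun f hf =>
      gi'.bdd_mul (c := 1) (hM.meas f hf).aestronglyMeasurable (Eventually.of_forall (hM.bdd f hf))
    have fgic : ∀ f ∈ M, Integrable (fun z => f z * (starRingEnd ℂ) (g' z)) m := fun f hf =>
      gic.bdd_mul (c := 1) (hM.meas f hf).aestronglyMeasurable (Eventually.of_forall (hM.bdd f hf))
    have hre : (fun z => (g' z).re) =ᵐ[m] 0 := by
      refine hM.real_zero hgen (Complex.measurable_re.comp mg') gi'.re ?_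
      intro f hf
      have e1 : ∀ z, f z * (((g' z).re : ℝ) : ℂ)
          = (1 / 2 : ℂ) * (f z * g' z + f z * (starRingEnd ℂ) (g' z)) := by
        intro z
        rw [Complex.re_eq_add_conj]
        ring
      simp only [e1]
      rw [integral_const_mul, integral_add (fgi f hf) (fgic f hf), k1 f hf, k2 f hf]
      simp
    have him : (fun z => (g' z).im) =ᵐ[m] 0 := by
      refine hM.real_zero hgen (Complex.measurable_im.comp mg') gi'.im ?_
      intro f hf
      have e1 : ∀ z, f z * (((g' z).im : ℝ) : ℂ)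
          = (1 / (2 * Complex.I) : ℂ) * (f z * g' z - f z * (starRingEnd ℂ) (g' z)) := by
        intro z
        rw [Complex.im_eq_sub_conj]
        ring
      simp only [e1]
      rw [integral_const_mul, integral_sub (fgi f hf) (fgic f hf), k1 f hf, k2 f hf]
      simp
    refine (Lp.eq_zero_iff_ae_eq_zero).2 ?_
    filter_upwards [eg', hre, him] with z h1 h2 h3
    rw [h1]
    exact Complex.ext h2 h3
  have hdense : K.topologicalClosure = ⊤ :=
    Submodule.topologicalClosure_eq_top_iff.2 hKperp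
  let φ' : Lp ℂ 2 m := hφ.toLp φ
  have hφ' : φ' ∈ closure (K : Set (Lp ℂ 2 m)) := by
    rw [← Submodule.topologicalClosure_coe, hdense]
    trivial
  obtain ⟨g, hg, hd⟩ := Metric.mem_closure_iff.1 hφ' ε hε
  obtain ⟨p, hp, ep⟩ := (hKm g).1 hg
  refine ⟨p, hp, ?_⟩
  have hdiff : MemLp (fun z => φ z - p z) 2 m := hφ.sub (hL p hp)
  have h1 : ∫ z, ‖φ z - p z‖ ∂m = (eLpNorm (fun z => φ z - p z) 1 m).toReal := by
    rw [eLpNorm_one_eq_lintegral_enorm, ← integral_norm_eq_lintegral_enorm hdiff.1]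
  have h2 : eLpNorm (fun z => φ z - p z) 1 m ≤ eLpNorm (fun z => φ z - p z) 2 m :=
    eLpNorm_le_eLpNorm_of_exponent_le (by norm_num) hdiff.1
  have h3 : dist φ' g = (eLpNorm (fun z => φ z - p z) 2 m).toReal := by
    rw [dist_eq_norm, Lp.norm_def]
    congr 1
    refine eLpNorm_congr_ae ?_
    filter_upwards [Lp.coeFn_sub φ' g, hφ.coeFn_toLp, ep] with z a1 a2 a3
    rw [a1, Pi.sub_apply, a2, a3]
  rw [h1]
  refine lt_of_le_of_lt ?_ hd
  rw [h3]
  exact ENNReal.toReal_mono hdiff.2.ne h2

end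

end Pool.Agent.Y313.CE
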