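import Mathlib

set_option autoImplicit false
set_option linter.unusedSectionVars false

/-!
# Multiplicative families of functions determine finite measures
-/

open MeasureTheory Set Filter Topology
open scoped ENNReal NNReal BoundedContinuousFunction Pointwise

namespace Pool.Agent.Y313.CE

section
variable {Z : Type*} [mZ : MeasurableSpace Z]

/-- a multiplicative family of measurable functions bounded by one, closed under conjugation -/
structure Fam (M : Submonoid (Z → ℂ)) : Prop where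
  meas : ∀ f ∈ M, Measurable f
  bdd : ∀ f ∈ M, ∀ z, ‖f z‖ ≤ 1
  conj : ∀ f ∈ M, (fun z => (starRingEnd ℂ) (f z)) ∈ M

theorem Fam.integrable {M : Submonoid (Z → ℂ)} (hM : Fam M) {f : Z → ℂ} (hf : f ∈ M)
    (ν : Measure Z) [IsFiniteMeasure ν] : Integrable f ν :=
  Integrable.of_bound (hM.meas f hf).aestronglyMeasurable 1 (Eventually.of_forall (hM.bdd f hf))

theorem Fam.int_span {M : Submonoid (Z → ℂ)} (hM : Fam M) {f : Z → ℂ}
    (hf : f ∈ Submodule.span ℂ (M : Set (Z → ℂ))) (ν : Measure Z) [IsFiniteMeasure ν] :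
    Integrable f ν := by
  induction hf using Submodule.span_induction with
  | mem x hx => exact hM.integrable hx ν
  | zero => exact integrable_zero _ _ _
  | add x y _ _ hx hy => exact hx.add hy
  | smul a x _ hx => exact hx.smul a

theorem Fam.eq_span {M : Submonoid (Z → ℂ)} (hM : Fam M) {ν ν' : Measure Z} [IsFiniteMeasure ν]
    [IsFiniteMeasure ν'] (h : ∀ f ∈ M, ∫ z, f z ∂ν = ∫ z, f z ∂ν') {f : Z → ℂ}
    (hf : f ∈ Submodule.span ℂ (M : Set (Z → ℂ))) : ∫ z, f z ∂ν = ∫ z, f z ∂ν' := by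
  induction hf using Submodule.span_induction with
  | mem x hx => exact h x hx
  | zero => simp
  | add x y hx' hy' hx hy =>
    simp only [Pi.add_apply]
    rw [integral_add (hM.int_span hx' ν) (hM.int_span hy' ν),
      integral_add (hM.int_span hx' ν') (hM.int_span hy' ν'), hx, hy]
  | smul a x hx' hx =>
    simp only [Pi.smul_apply]
    rw [integral_smul, integral_smul, hx]

theorem Fam.span_mul {M : Submonoid (Z → ℂ)} {f g : Z → ℂ}
    (hf : f ∈ Submodule.span ℂ (M : Set (Z → ℂ))) (hg : g ∈ Submodule.span ℂ (M : Set (Z → ℂ))) :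
    f * g ∈ Submodule.span ℂ (M : Set (Z → ℂ)) := by
  have h := Submodule.mul_mem_mul hf hg
  rw [Submodule.span_mul_span] at h
  have e : (M : Set (Z → ℂ)) * (M : Set (Z → ℂ)) = (M : Set (Z → ℂ)) := Submonoid.coe_mul_self_eq M
  rwa [e] at h

theorem Fam.span_conj {M : Submonoid (Z → ℂ)} (hM : Fam M) {f : Z → ℂ}
    (hf : f ∈ Submodule.span ℂ (M : Set (Z → ℂ))) :
    star f ∈ Submodule.span ℂ (M : Set (Z → ℂ)) := by
  induction hf using Submodule.span_induction with
  | mem x hx => exact Submodule.subset_span (hM.conj x hx)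
  | zero => simp
  | add x y _ _ hx hy => rw [star_add]; exact Submodule.add_mem _ hx hy
  | smul a x _ hx => rw [star_smul]; exact Submodule.smul_mem _ _ hx

/-- the closed unit disc -/
abbrev Dsc := Metric.closedBall (0 : ℂ) 1

/-- the algebra of continuous functions whose composition with the joint map is in the span -/
def alg {M : Submonoid (Z → ℂ)} (hM : Fam M) (t : Finset (Z → ℂ)) (F : Z → (t → Dsc)) :
    StarSubalgebra ℂ ((t → Dsc) →ᵇ ℂ) where
  carrier := {g | (fun z => g (F z)) ∈ Submodule.span ℂ (M : Set (Z → ℂ))}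
  mul_mem' := fun {a b} ha hb => by
    rw [Set.mem_ofPred_eq] at *
    exact Fam.span_mul ha hb
  one_mem' := by
    rw [Set.mem_ofPred_eq]
    exact Submodule.subset_span M.one_mem
  add_mem' := fun {a b} ha hb => by
    rw [Set.mem_ofPred_eq] at *
    exact Submodule.add_mem _ ha hb
  zero_mem' := by
    rw [Set.mem_ofPred_eq]
    exact Submodule.zero_mem _
  algebraMap_mem' := fun r => by
    rw [Set.mem_ofPred_eq]
    have : (fun z => (algebraMap ℂ ((t → Dsc) →ᵇ ℂ) r) (F z)) = r • (1 : Z → ℂ) := by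
      ext z
      simp [BoundedContinuousFunction.algebraMap_apply]
    rw [this]
    exact Submodule.smul_mem _ _ (Submodule.subset_span M.one_mem)
  star_mem' := fun {a} ha => by
    rw [Set.mem_ofPred_eq] at *
    exact hM.span_conj ha

theorem mem_alg {M : Submonoid (Z → ℂ)} (hM : Fam M) (t : Finset (Z → ℂ)) (F : Z → (t → Dsc))
    (g : (t → Dsc) →ᵇ ℂ) :
    g ∈ alg hM t F ↔ (fun z => g (F z)) ∈ Submodule.span ℂ (M : Set (Z → ℂ)) := Iff.rfl

theorem uniq_fin {M : Submonoid (Z → ℂ)} (hM : Fam M) {ν ν' : Measure Z} [IsFiniteMeasure ν]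
    [IsFiniteMeasure ν'] (h : ∀ f ∈ M, ∫ z, f z ∂ν = ∫ z, f z ∂ν') (t : Finset (Z → ℂ))
    (ht : ∀ f ∈ t, f ∈ M) (E : (Z → ℂ) → Set ℂ) (hE : ∀ f ∈ t, MeasurableSet (E f)) :
    ν (⋂ f ∈ t, f ⁻¹' (E f)) = ν' (⋂ f ∈ t, f ⁻¹' (E f)) := by
  let F : Z → (t → Dsc) := fun z f => ⟨f.1 z, by
    simpa using hM.bdd f.1 (ht f.1 f.2) z⟩
  have hF : Measurable F := measurable_pi_lambda _ fun f =>
    (hM.meas f.1 (ht f.1 f.2)).subtype_mk
  have hsep : ((alg hM t F).map (BoundedContinuousFunction.toContinuousMapStarₐ ℂ)).SeparatesPoints := by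
    intro x y hxy
    obtain ⟨f, hf⟩ := Function.ne_iff.1 hxy
    let g : (t → Dsc) →ᵇ ℂ := BoundedContinuousFunction.ofNormedAddCommGroup
      (fun x : t → Dsc => ((x f : Dsc) : ℂ)) (by fun_prop) 1 (fun x =>
        mem_closedBall_zero_iff.1 (x f).2)
    refine ⟨g, ?_, ?_⟩
    · refine ⟨BoundedContinuousFunction.toContinuousMapStarₐ ℂ g, ?_, rfl⟩
      refine ⟨g, ?_, rfl⟩
      refine (mem_alg hM t F g).2 ?_
      exact Submodule.subset_span (ht f.1 f.2)
    · intro h2
      apply hf
      exact Subtype.ext h2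
  have hmap : ν.map F = ν'.map F := by
    refine ext_of_forall_mem_subalgebra_integral_eq_of_pseudoEMetric_complete_countable hsep ?_
    intro g hg
    have hg' := (mem_alg hM t F g).1 hg
    rw [integral_map hF.aemeasurable g.continuous.measurable.aestronglyMeasurable,
      integral_map hF.aemeasurable g.continuous.measurable.aestronglyMeasurable]
    exact hM.eq_span h hg'
  have hset : (⋂ f ∈ t, f ⁻¹' (E f)) = F ⁻¹' (Set.univ.pi fun f : t => Subtype.val ⁻¹' (E f.1)) := by
    ext z
    simp [F]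
  have hms : MeasurableSet (Set.univ.pi fun f : t => (Subtype.val ⁻¹' (E f.1) : Set Dsc)) :=
    MeasurableSet.univ_pi fun f => measurable_subtype_coe (hE f.1 f.2)
  rw [hset, ← Measure.map_apply hF hms, ← Measure.map_apply hF hms, hmap]

/-- the σ-algebra generated by the family -/
noncomputable abbrev sig (M : Submonoid (Z → ℂ)) : MeasurableSpace Z :=
  ⨆ f ∈ (M : Set (Z → ℂ)), MeasurableSpace.comap f inferInstance

theorem Fam.sig_le {M : Submonoid (Z → ℂ)} (hM : Fam M) : sig M ≤ mZ :=
  iSup₂_le fun f hf => (hM.meas f hf).comap_le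

theorem uniq {M : Submonoid (Z → ℂ)} (hM : Fam M) {ν ν' : Measure Z} [IsFiniteMeasure ν]
    [IsFiniteMeasure ν'] (h : ∀ f ∈ M, ∫ z, f z ∂ν = ∫ z, f z ∂ν') {B : Set Z}
    (hB : MeasurableSet[sig M] B) : ν B = ν' B := by
  have hu : ν univ = ν' univ := by
    have h1 := h 1 M.one_mem
    simp only [Pi.one_apply, integral_const, measureReal_def] at h1
    have h2 : (ν univ).toReal = (ν' univ).toReal := by
      have := h1
      simpa using this
    exact (ENNReal.toReal_eq_toReal_iff' (measure_ne_top _ _) (measure_ne_top _ _)).1 h2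
  refine ext_on_measurableSpace_of_generate_finite mZ
    (piiUnionInter (fun f : Z → ℂ => {s | MeasurableSet[MeasurableSpace.comap f inferInstance] s})
      (M : Set (Z → ℂ))) ?_ hM.sig_le (generateFrom_piiUnionInter_measurableSet _ _).symm
    (isPiSystem_piiUnionInter _ (fun f => @MeasurableSpace.isPiSystem_measurableSet _ (_)) _) hu hB
  rintro s ⟨t, htM, G, hG, rfl⟩
  choose! E hE1 hE2 using fun f (hf : f ∈ t) => hG f hf
  have e : (⋂ f ∈ t, G f) = ⋂ f ∈ t, f ⁻¹' (E f) := by
    refine iInter₂_congr fun f hf => (hE2 f hf).symm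
  rw [e]
  exact uniq_fin hM h t (fun f hf => htM hf) E hE1

end

end Pool.Agent.Y313.CE
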