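import Pool.Agent.Y313.CE.Dens
import Pool.Agent.H716R2.MixK
import Pool.Agent.Y313.RM.MPx

set_option autoImplicit false
set_option linter.unusedSectionVars false

/-!
# From a multiplicative family to all sets
-/

open MeasureTheory Set Filter Topology
open scoped ENNReal NNReal

namespace Pool.Agent.Y313.CE

open Pool.Agent.H716R2

section
variable {Z : Type*} [mZ : MeasurableSpace Z]

theorem up_fun {M : Submonoid (Z → ℂ)} (hM : Fam M) {m : Measure Z} [IsProbabilityMeasure m]
    (hgen : ∀ B, MeasurableSet B → ∃ B', MeasurableSet[sig M] B' ∧ B =ᵐ[m] B')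
    {T : Z ≃ᵐ Z} (hT : MeasurePreserving T m m) {r : ℕ} {s : ℕ → Fin r → ℕ}
    (h : ∀ g : Fin r → Z → ℂ, (∀ i, g i ∈ M) →
      Tendsto (fun n => ∫ z, ∏ i, g i ((⇑T)^[s n i] z) ∂m) atTop (𝓝 (∏ i, ∫ z, g i z ∂m)))
    (g : Fin r → Z → ℂ) (hg : ∀ i, Measurable (g i)) (hb : ∀ i z, ‖g i z‖ ≤ 1) :
    Tendsto (fun n => ∫ z, ∏ i, g i ((⇑T)^[s n i] z) ∂m) atTop (𝓝 (∏ i, ∫ z, g i z ∂m)) := by
  classical
  have key : ∀ S : Finset (Fin r), ∀ g : Fin r → Z → ℂ, (∀ i, Measurable (g i)) →
      (∀ i z, ‖g i z‖ ≤ 1) → (∀ i, i ∉ S → g i ∈ M) →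
      Tendsto (fun n => ∫ z, ∏ i, g i ((⇑T)^[s n i] z) ∂m) atTop (𝓝 (∏ i, ∫ z, g i z ∂m)) := by
    intro S
    induction S using Finset.induction_on with
    | empty => exact fun g _ _ hS => h g fun i => hS i (Finset.notMem_empty i)
    | insert a S haS ih =>
      intro g hg hb hS
      let W : ℕ → Z → ℂ := fun n z => ∏ i ∈ Finset.univ.erase a, g i ((⇑T)^[s n i] z)
      have mW : ∀ n, Measurable (W n) := fun n => Finset.measurable_prod _ fun i _ =>
        (hg i).comp (iter_meas T (s n i))
      have bW : ∀ n z, ‖W n z‖ ≤ 1 := by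
        intro n z
        simp only [W]
        rw [norm_prod]
        exact Finset.prod_le_one (fun i _ => norm_nonneg _) fun i _ => hb i _
      let c : ℂ := ∏ i ∈ Finset.univ.erase a, ∫ z, g i z ∂m
      have bc : ‖c‖ ≤ 1 := by
        simp only [c]
        rw [norm_prod]
        refine Finset.prod_le_one (fun i _ => norm_nonneg _) fun i _ => ?_
        refine (norm_integral_le_integral_norm _).trans ?_
        calc ∫ z, ‖g i z‖ ∂m ≤ ∫ _, (1 : ℝ) ∂m := by
              refine integral_mono_of_nonneg (Eventually.of_forall fun z => norm_nonneg _)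
                (integrable_const _) (Eventually.of_forall (hb i))
          _ = 1 := by simp
      have hci : ∀ {φ : Z → ℂ} (_ : Integrable φ m) (n : ℕ),
          Integrable (fun z => φ ((⇑T)^[s n a] z)) m := fun hφ n =>
        ((iter_mp hT (s n a)).integrable_comp hφ.aestronglyMeasurable).2 hφ
      have hint : ∀ {φ : Z → ℂ} (_ : Integrable φ m) (n : ℕ),
          Integrable (fun z => φ ((⇑T)^[s n a] z) * W n z) m := fun hφ n =>
        (hci hφ n).mul_bdd (c := 1) (mW n).aestronglyMeasurable (Eventually.of_forall (bW n))
      have hspan : ∀ p ∈ Submodule.span ℂ (M : Set (Z → ℂ)),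
          Tendsto (fun n => ∫ z, p ((⇑T)^[s n a] z) * W n z ∂m) atTop
            (𝓝 ((∫ z, p z ∂m) * c)) := by
        intro p hp
        induction hp using Submodule.span_induction with
        | mem x hx =>
          let g' : Fin r → Z → ℂ := Function.update g a x
          have h1 := ih g' (by
            intro i
            by_cases hi : i = a
            · subst hi
              simp only [g', Function.update_self]
              exact hM.meas x hx
            · simp only [g', Function.update_of_ne hi]
              exact hg i) (by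
            intro i z
            by_cases hi : i = a
            · subst hi
              simp only [g', Function.update_self]
              exact hM.bdd x hx z
            · simp only [g', Function.update_of_ne hi]
              exact hb i z) (by
            intro i hi
            by_cases hia : i = a
            · subst hia
              simp only [g', Function.update_self]
              exact hx
            · simp only [g', Function.update_of_ne hia]
              exact hS i (by simp [hia, hi]))
          have e1 : ∀ n z, ∏ i, g' i ((⇑T)^[s n i] z) = x ((⇑T)^[s n a] z) * W n z := by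
            intro n z
            rw [← Finset.mul_prod_erase _ _ (Finset.mem_univ a)]
            congr 1
            · simp only [g', Function.update_self]
            · refine Finset.prod_congr rfl fun i hi => ?_
              simp only [g', Function.update_of_ne (Finset.ne_of_mem_erase hi)]
          have e2 : ∏ i, ∫ z, g' i z ∂m = (∫ z, x z ∂m) * c := by
            rw [← Finset.mul_prod_erase _ _ (Finset.mem_univ a)]
            congr 1
            · simp only [g', Function.update_self]
            · refine Finset.prod_congr rfl fun i hi => ?_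
              simp only [g', Function.update_of_ne (Finset.ne_of_mem_erase hi)]
          simp only [e1] at h1
          rw [e2] at h1
          exact h1
        | zero => simp
        | add x y hx' hy' hx hy =>
          have ix := hM.int_span hx' m
          have iy := hM.int_span hy' m
          have h1 := hx.add hy
          have e1 : ∀ n, (∫ z, x ((⇑T)^[s n a] z) * W n z ∂m)
              + ∫ z, y ((⇑T)^[s n a] z) * W n z ∂m
              = ∫ z, (x + y) ((⇑T)^[s n a] z) * W n z ∂m := by
            intro n
            rw [← integral_add (hint ix n) (hint iy n)]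
            congr 1
            ext z
            simp [add_mul]
          have e2 : (∫ z, x z ∂m) * c + (∫ z, y z ∂m) * c = (∫ z, (x + y) z ∂m) * c := by
            rw [← add_mul, ← integral_add ix iy]
            rfl
          rw [e2] at h1
          exact h1.congr e1
        | smul b x hx' hx =>
          have h1 := hx.const_mul b
          have e1 : ∀ n, b * ∫ z, x ((⇑T)^[s n a] z) * W n z ∂m
              = ∫ z, (b • x) ((⇑T)^[s n a] z) * W n z ∂m := by
            intro n
            rw [← integral_const_mul]
            congr 1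
            ext z
            simp [mul_assoc]
          have e2 : b * ((∫ z, x z ∂m) * c) = (∫ z, (b • x) z ∂m) * c := by
            rw [← mul_assoc, ← integral_const_mul]
            rfl
          rw [e2] at h1
          exact h1.congr e1
      have e1 : ∀ n z, ∏ i, g i ((⇑T)^[s n i] z) = g a ((⇑T)^[s n a] z) * W n z := fun n z =>
        (Finset.mul_prod_erase _ _ (Finset.mem_univ a)).symm
      have e2 : ∏ i, ∫ z, g i z ∂m = (∫ z, g a z ∂m) * c :=
        (Finset.mul_prod_erase _ (fun i => ∫ z, g i z ∂m) (Finset.mem_univ a)).symm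
      simp only [e1]
      rw [e2, Metric.tendsto_atTop]
      intro ε hε
      have gL : MemLp (g a) 2 m :=
        MemLp.of_bound (hg a).aestronglyMeasurable 1 (Eventually.of_forall (hb a))
      have ga : Integrable (g a) m := gL.integrable (by norm_num)
      obtain ⟨p, hp, hd⟩ := hM.dense hgen gL (ε := ε / 3) (by positivity)
      have ip := hM.int_span hp m
      obtain ⟨N, hN⟩ := Metric.tendsto_atTop.1 (hspan p hp) (ε / 3) (by positivity)
      refine ⟨N, fun n hn => ?_⟩
      have h2 := hN n hn
      rw [dist_eq_norm] at h2 ⊢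
      have h1 : ‖∫ z, g a ((⇑T)^[s n a] z) * W n z ∂m
          - ∫ z, p ((⇑T)^[s n a] z) * W n z ∂m‖ < ε / 3 := by
        rw [← integral_sub (hint ga n) (hint ip n)]
        refine lt_of_le_of_lt (norm_integral_le_integral_norm _) (lt_of_le_of_lt ?_ hd)
        have e3 : ∫ z, ‖g a z - p z‖ ∂m
            = ∫ z, ‖g a ((⇑T)^[s n a] z) - p ((⇑T)^[s n a] z)‖ ∂m := by
          have hn2 : AEStronglyMeasurable (fun z => ‖g a z - p z‖) m := (ga.sub ip).norm.1
          exact (Pool.Agent.Y313.RM.mp_int (iter_mp hT (s n a)) hn2).symm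
        rw [e3]
        refine integral_mono ((hint ga n).sub (hint ip n)).norm
          (((hci ga n).sub (hci ip n)).norm) fun z => ?_
        simp only
        rw [← sub_mul, norm_mul]
        exact mul_le_of_le_one_right (norm_nonneg _) (bW n z)
      have h3 : ‖(∫ z, p z ∂m) * c - (∫ z, g a z ∂m) * c‖ < ε / 3 := by
        rw [← sub_mul, norm_mul, ← integral_sub ip ga]
        refine lt_of_le_of_lt (mul_le_of_le_one_right (norm_nonneg _) bc) ?_
        refine lt_of_le_of_lt (norm_integral_le_integral_norm _) ?_
        have : ∀ z, ‖p z - g a z‖ = ‖g a z - p z‖ := fun z => norm_sub_rev _ _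
        simp only [this]
        exact hd
      calc ‖∫ z, g a ((⇑T)^[s n a] z) * W n z ∂m - (∫ z, g a z ∂m) * c‖
          = ‖(∫ z, g a ((⇑T)^[s n a] z) * W n z ∂m - ∫ z, p ((⇑T)^[s n a] z) * W n z ∂m)
            + (∫ z, p ((⇑T)^[s n a] z) * W n z ∂m - (∫ z, p z ∂m) * c)
            + ((∫ z, p z ∂m) * c - (∫ z, g a z ∂m) * c)‖ := by congr 1; ring
        _ ≤ _ := norm_add₃_le
        _ < ε := by linarith
  exact key Finset.univ g hg hb fun i hi => absurd (Finset.mem_univ i) hi

/-- convergence on the family implies asymptotic independence of sets -/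
theorem up {M : Submonoid (Z → ℂ)} (hM : Fam M) {m : Measure Z} [IsProbabilityMeasure m]
    (hgen : ∀ B, MeasurableSet B → ∃ B', MeasurableSet[sig M] B' ∧ B =ᵐ[m] B')
    {T : Z ≃ᵐ Z} (hT : MeasurePreserving T m m) {r : ℕ}
    (h : ∀ s : ℕ → Fin r → ℕ, Spread s → ∀ g : Fin r → Z → ℂ, (∀ i, g i ∈ M) →
      Tendsto (fun n => ∫ z, ∏ i, g i ((⇑T)^[s n i] z) ∂m) atTop (𝓝 (∏ i, ∫ z, g i z ∂m))) :
    FactSet m T r := by
  intro s hs A hA
  have h1 := up_fun hM hgen hT (h s hs) (fun i => (A i).indicator fun _ => (1 : ℂ))
    (fun i => measurable_const.indicator (hA i)) (fun i z => by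
      by_cases hz : z ∈ A i <;> simp [hz])
  have e1 : ∀ n, ∫ z, ∏ i, (A i).indicator (fun _ => (1 : ℂ)) ((⇑T)^[s n i] z) ∂m
      = ((m.real (⋂ i, (⇑T)^[s n i] ⁻¹' A i) : ℝ) : ℂ) := by
    intro n
    have : ∀ z, ∏ i, (A i).indicator (fun _ => (1 : ℂ)) ((⇑T)^[s n i] z)
        = (⋂ i, (⇑T)^[s n i] ⁻¹' A i).indicator (fun _ => (1 : ℂ)) z := fun z =>
      prod_indicator_eq T (s n) A z
    simp only [this]
    rw [integral_indicator (MeasurableSet.iInter fun i => (iter_meas T (s n i)) (hA i))]
    simp
  have e2 : ∏ i, ∫ z, (A i).indicator (fun _ => (1 : ℂ)) z ∂m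
      = ((∏ i, m.real (A i) : ℝ) : ℂ) := by
    rw [Complex.ofReal_prod]
    refine Finset.prod_congr rfl fun i _ => ?_
    rw [integral_indicator (hA i)]
    simp
  simp only [e1] at h1
  rw [e2] at h1
  have h2 := (Complex.continuous_re.tendsto _).comp h1
  have h3 : (((∏ i, m.real (A i) : ℝ) : ℂ)).re = ∏ i, m.real (A i) := Complex.ofReal_re _
  rw [h3] at h2
  exact h2.congr fun n => Complex.ofReal_re _

end

end Pool.Agent.Y313.CE
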